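import Pool.Agent.Y212.RM.Sym

/-!
# Subalgebras of equal rank which generate the same associative algebra

Let `G` be a Lie algebra of endomorphisms with nondegenerate trace form over an algebraically closed
field of characteristic zero, and `t` a torus in `G` which is its own centralizer. If a subalgebra `L`
of `G` contains `t` and generates an associative algebra which contains `G` then `L = G`.

The proof: every weight of `G` is a sum of weights of `L`, because the trace form pairs the weight
vectors of opposite weights only. Let `x` in `G` be a vector of weight `α = β_1 + … + β_k`, with vectors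
`x_i` in `L` of weight `β_i`, let `f` be the opposite root vector and `h = [x, f]`. As
`β_1 (h) + … + β_k (h) = 2`, the `x_i` are not all lowest weight vectors, that is, `[f, x_i] ≠ 0` for some
`i`. Let `x'` in `G` be of weight `α - β_i` with `tr ([f, x_i] x') ≠ 0`; it is in `L` by induction on `k`, and
`tr ([x_i, x'] f) = tr ([f, x_i] x') ≠ 0`, so that `x` is a multiple of `[x_i, x']`.
-/

set_option autoImplicit false

namespace Pool.Agent.K1H15.BS

open Module Pool.Agent.Y114.RM Pool.Agent.Y212.RM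

variable {K : Type} [Field K] {V : Type} [AddCommGroup V] [Module K V]

/-- `X` is a vector of weight `χ`. -/
def Wv (t : Submodule K (End K V)) (χ : t → K) (X : End K V) : Prop :=
  ∀ a : t, (a : End K V) * X - X * a = χ a • X

/-- the weights of `L` -/
def Ws (t L : Submodule K (End K V)) : Set (t → K) := {χ | ∃ X ∈ L, X ≠ 0 ∧ Wv t χ X}

theorem Wv.one (t : Submodule K (End K V)) : Wv t 0 (1 : End K V) := fun a => by
  rw [mul_one, one_mul, sub_self, Pi.zero_apply, zero_smul]

theorem Wv.mul {t : Submodule K (End K V)} {χ ψ : t → K} {X Y : End K V} (hX : Wv t χ X)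
    (hY : Wv t ψ Y) : Wv t (χ + ψ) (X * Y) := fun a => by
  have h1 : (a : End K V) * (X * Y) - X * Y * a =
      ((a : End K V) * X - X * a) * Y + X * ((a : End K V) * Y - Y * a) := by noncomm_ring
  rw [h1, hX a, hY a, smul_mul_assoc, mul_smul_comm, ← add_smul]
  rfl

theorem Wv.br {t : Submodule K (End K V)} {χ ψ : t → K} {X Y : End K V} (hX : Wv t χ X)
    (hY : Wv t ψ Y) : Wv t (χ + ψ) (X * Y - Y * X) := fun a => by
  have h1 := hX.mul hY a
  have h2 := hY.mul hX a
  rw [add_comm ψ χ] at h2
  rw [smul_sub, ← h1, ← h2]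
  noncomm_ring

section

variable [CharZero K] [IsAlgClosed K] [FiniteDimensional K V] {G L t : Submodule K (End K V)}

attribute [local instance 100] LieRing.ofAssociativeRing

/-- A vector of weight `α ≠ 0` in `G`, `α` a sum of weights `β_i` of `L`: the bracket of the opposite
root vector and of one of the vectors of weight `β_i` is not zero. -/
theorem exists_ne {e f h : End K V} (hh0 : h ≠ 0) (hef : e * f - f * e = h)
    (hhe : h * e - e * h = 2 • e) (hhf : h * f - f * h = -(2 • f)) (hht : h ∈ t)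
    {s : Multiset (t → K)} (hs : ∀ β ∈ s, β ∈ Ws t L) (hsum : s.sum ⟨h, hht⟩ = 2) :
    ∃ β ∈ s, ∃ X ∈ L, Wv t β X ∧ f * X - X * f ≠ 0 := by
  by_contra hcon
  push Not at hcon
  have hsl : IsSl2Triple h e f := ⟨hh0, by rw [← hef]; rfl, by rw [← hhe]; rfl, by
    rw [← hhf]; rfl⟩
  have key : ∀ β ∈ s, ∃ n : ℕ, β ⟨h, hht⟩ = -(n : K) := by
    intro β hβ
    obtain ⟨X, hX, hX0, hw⟩ := hs β hβ
    have h1 := hcon β hβ X hX hw
    have hprim : hsl.symm.HasPrimitiveVectorWith X (-β ⟨h, hht⟩) := by
      refine ⟨hX0, ?_, h1⟩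
      rw [neg_lie, neg_smul, neg_inj]
      exact hw ⟨h, hht⟩
    obtain ⟨n, hn⟩ := hprim.exists_nat
    exact ⟨n, by rw [← hn, neg_neg]⟩
  have key2 : ∀ s : Multiset (t → K), (∀ β ∈ s, ∃ n : ℕ, β ⟨h, hht⟩ = -(n : K)) →
      ∃ N : ℕ, s.sum ⟨h, hht⟩ = -(N : K) := by
    intro s
    induction s using Multiset.induction with
    | empty => intro _; exact ⟨0, by simp⟩
    | cons β s ih =>
      intro h1
      obtain ⟨N, hN⟩ := ih fun β hβ => h1 β (Multiset.mem_cons_of_mem hβ)
      obtain ⟨n, hn⟩ := h1 β (Multiset.mem_cons_self β s)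
      refine ⟨n + N, ?_⟩
      rw [Multiset.sum_cons, Pi.add_apply, hn, hN]
      push_cast
      ring
  obtain ⟨N, hN⟩ := key2 s key
  rw [hsum] at hN
  have h1 : ((2 + N : ℕ) : K) = 0 := by
    push_cast
    rw [hN]
    ring
  have h2 : 2 + N = 0 := by exact_mod_cast h1
  omega

/-- The weight vectors of `G` whose weights are sums of weights of `L` are in `L`. -/
theorem mem_of_sum (T : Tor G t) (hL : IsLie L) (hLG : L ≤ G) (ht : t ≤ L) (n : ℕ) :
    ∀ s : Multiset (t → K), s.card = n → (∀ β ∈ s, β ∈ Ws t L) → ∀ x ∈ G, Wv t s.sum x → x ∈ L := by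
  classical
  induction n with
  | zero =>
    intro s hs _ x hx hw
    rw [Multiset.card_eq_zero] at hs
    subst hs
    refine ht (T.cen x hx fun a ha => ?_)
    have h1 := hw ⟨a, ha⟩
    rw [Multiset.sum_zero, Pi.zero_apply, zero_smul] at h1
    exact sub_eq_zero.1 h1
  | succ n ih =>
    intro s hs hβ x hx hw
    by_cases hx0 : x = 0
    · rw [hx0]; exact L.zero_mem
    by_cases hχ : ∃ a0 : t, s.sum a0 ≠ 0
    · obtain ⟨a0, ha0⟩ := hχ
      obtain ⟨f, hf, hfw, htr, h, hht, hh0, hef, hhe, hhf⟩ := T.exists_triple hx hw hx0 ha0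
      have h2 : s.sum ⟨h, hht⟩ = 2 := by
        have h3 := hw ⟨h, hht⟩
        change h * x - x * h = s.sum ⟨h, hht⟩ • x at h3
        rw [hhe, ← ofNat_smul_eq_nsmul K] at h3
        exact (smul_left_injective K hx0 h3).symm
      obtain ⟨β, hβs, X, hX, hXw, hy0⟩ := exists_ne hh0 hef hhe hhf hht hβ h2
      have hfw' : Wv t (fun a => -s.sum a) f := hfw
      have hyw := hfw'.br hXw
      obtain ⟨x', hx', hxw', htr'⟩ := T.exists_dual (T.lie f hf X (hLG hX)) hyw hy0
      have hs' : s.sum = β + (s.erase β).sum := by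
        rw [← Multiset.sum_cons, Multiset.cons_erase hβs]
      have hx'L : x' ∈ L := by
        refine ih (s.erase β) ?_ (fun γ hγ => hβ γ (Multiset.mem_of_mem_erase hγ)) x' hx' ?_
        · rw [Multiset.card_erase_of_mem hβs, hs]
          rfl
        · intro a
          rw [hxw' a]
          congr 1
          rw [hs', Pi.add_apply, Pi.add_apply]
          ring
      have hx'w : Wv t (s.erase β).sum x' := by
        intro a
        rw [hxw' a]
        congr 1
        rw [hs', Pi.add_apply, Pi.add_apply]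
        ring
      have hzw := hXw.br hx'w
      rw [← hs'] at hzw
      have hz0 : X * x' - x' * X ≠ 0 := by
        intro h0
        apply htr'
        have h4 : LinearMap.trace K V ((X * x' - x' * X) * f) = 0 := by
          rw [h0, zero_mul, LinearMap.map_zero]
        rw [← h4, sub_mul, sub_mul, LinearMap.map_sub, LinearMap.map_sub, mul_assoc f X x',
          LinearMap.trace_mul_comm K f (X * x'), mul_assoc x' X f, LinearMap.trace_mul_comm K x']
      obtain ⟨c, hc⟩ := T.mem_span (hLG (hL X hX x' hx'L)) hx hzw hw hz0 ha0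
      rw [hc]
      exact L.smul_mem c (hL X hX x' hx'L)
    · push Not at hχ
      refine ht (T.cen x hx fun a ha => ?_)
      have h1 := hw ⟨a, ha⟩
      rw [hχ, zero_smul] at h1
      exact sub_eq_zero.1 h1

/-- The vectors whose weights are sums of weights of `L`. -/
def Wm (t L : Submodule K (End K V)) : Submonoid (End K V) where
  carrier := {Z | ∃ χ ∈ AddSubmonoid.closure (Ws t L), Wv t χ Z}
  one_mem' := ⟨0, AddSubmonoid.zero_mem _, Wv.one t⟩
  mul_mem' := by
    rintro a b ⟨χ, hχ, ha⟩ ⟨ψ, hψ, hb⟩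
    exact ⟨χ + ψ, AddSubmonoid.add_mem _ hχ hψ, ha.mul hb⟩

theorem mem_span_of_adjoin (T : Tor G t) (hL : IsLie L) (ht : t ≤ L) {x : End K V}
    (hx : x ∈ Algebra.adjoin K (L : Set (End K V))) :
    x ∈ Submodule.span K (Wm t L : Set (End K V)) := by
  have h1 : Subalgebra.toSubmodule (Algebra.adjoin K (Wm t L : Set (End K V))) =
      Submodule.span K (Wm t L : Set (End K V)) := by
    rw [Algebra.adjoin_eq_span, Submonoid.closure_eq]
  rw [← h1, Subalgebra.mem_toSubmodule]
  refine Algebra.adjoin_le ?_ hx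
  intro Y hY
  rw [SetLike.mem_coe, ← Subalgebra.mem_toSubmodule, h1]
  refine wt_induction t T.diag T.comm L (fun a ha X hX => hL a (ht ha) X hX)
    (P := fun X => X ∈ Submodule.span K (Wm t L : Set (End K V))) (Submodule.zero_mem _)
    (fun X Y _ _ hX hY => Submodule.add_mem _ hX hY) ?_ Y hY
  intro χ X hX hw
  by_cases hX0 : X = 0
  · show X ∈ _
    rw [hX0]; exact Submodule.zero_mem _
  · exact Submodule.subset_span ⟨χ, AddSubmonoid.subset_closure ⟨X, hX, hX0, hw⟩, hw⟩

/-- The weights of `G` are sums of weights of `L`. -/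
theorem wt_mem (T : Tor G t) (hL : IsLie L) (ht : t ≤ L) {x : End K V} (hxG : x ∈ G)
    (hx : x ∈ Algebra.adjoin K (L : Set (End K V))) (hx0 : x ≠ 0) {χ : t → K} (hw : Wv t χ x) :
    χ ∈ AddSubmonoid.closure (Ws t L) := by
  by_contra hcon
  obtain ⟨f, hf, hfw, htr⟩ := T.exists_dual hxG hw hx0
  apply htr
  have h1 := mem_span_of_adjoin T hL ht hx
  clear htr hx0 hw hx hxG
  induction h1 using Submodule.span_induction with
  | mem Z hZ =>
    obtain ⟨ψ, hψ, hZw⟩ := hZ
    have h2 : ∃ a : t, ψ a ≠ χ a := by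
      by_contra h3
      push Not at h3
      exact hcon ((funext h3 : ψ = χ) ▸ hψ)
    obtain ⟨a, ha⟩ := h2
    exact trace_wt (hZw a) (hfw a) (by rw [← sub_eq_add_neg]; exact sub_ne_zero.2 ha)
  | zero => rw [zero_mul, LinearMap.map_zero]
  | add a b _ _ ha hb => rw [add_mul, LinearMap.map_add, ha, hb, add_zero]
  | smul c a _ ha => rw [smul_mul_assoc, LinearMap.map_smul, ha, smul_zero]

/-- **Equal rank and equal enveloping algebras.** -/
theorem full (T : Tor G t) (hL : IsLie L) (hLG : L ≤ G) (ht : t ≤ L)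
    (hadj : ∀ x ∈ G, x ∈ Algebra.adjoin K (L : Set (End K V))) : L = G := by
  refine le_antisymm hLG ?_
  show ∀ X ∈ G, X ∈ L
  refine wt_induction t T.diag T.comm G (fun a ha X hX => T.lie a (T.le ha) X hX)
    (P := fun X => X ∈ L) L.zero_mem (fun X Y _ _ hX hY => L.add_mem hX hY) ?_
  intro χ X hX hw
  show X ∈ L
  by_cases hX0 : X = 0
  · rw [hX0]; exact L.zero_mem
  have h1 := wt_mem T hL ht hX (hadj X hX) hX0 hw
  obtain ⟨s, hs, hsum⟩ := AddSubmonoid.exists_multiset_of_mem_closure h1
  exact mem_of_sum T hL hLG ht s.card s rfl hs X hX (by rw [hsum]; exact hw)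

end

end Pool.Agent.K1H15.BS
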