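import Pool.Agent.K1H15.BS.Full
import Pool.Agent.R918.Ell3
import Pool.Agent.Y114.RM.All3

/-!
# The motivic Mumford-Tate conjecture from an element of maximal rank and the endomorphisms
-/

set_option autoImplicit false
set_option linter.unusedSectionVars false
set_option linter.unusedVariables false

namespace Pool.Agent.K1H15.BS

open NumberField IsDedekindDomain Module Polynomial TensorProduct
open Pool.Agent.Y114.RM Pool.Agent.Y114.TF Pool.Agent.Y114.GF Pool.Agent.Y114.MU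
  Pool.Agent.H204R3.GP Pool.Agent
open Pool.Agent.W569.FM Pool.Agent.W571.FM Pool.Agent.Y115.R Pool.Agent.Y115.T Pool.Agent.Y115.Chi

section eigen

variable {k : Type} [Field k] [CharZero k] [Algebra k ℂ] {ι : Type} [Fintype ι] [DecidableEq ι]
  {V : ι → Type} [∀ i, AddCommGroup (V i)] [∀ i, Module k (V i)] [∀ i, FiniteDimensional k (V i)]
  {Γ : Type} [Group Γ] (ρ : ∀ i, Representation k Γ (V i))

/-- The eigenvalues of the parts are eigenvalues of the sum. -/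
theorem eigen_of_root (g : Γ) {i : ι} {z : ℂ} (hz : aeval z (ρ i g).charpoly = 0) :
    End.HasEigenvalue ((sumRep ρ g).baseChange ℂ) z := by
  have h1 : End.HasEigenvalue ((ρ i g).baseChange ℂ) z := by
    rw [Module.End.hasEigenvalue_iff_isRoot_charpoly, LinearMap.charpoly_baseChange, IsRoot.def,
      eval_map]
    exact hz
  obtain ⟨x, hx⟩ := h1.exists_hasEigenvector
  have hinj : Function.Injective ((LinearMap.single k V i).baseChange ℂ) := by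
    have h2 : (LinearMap.proj (R := k) (φ := V) i).baseChange ℂ ∘ₗ
        (LinearMap.single k V i).baseChange ℂ = LinearMap.id := by
      rw [← LinearMap.baseChange_comp, LinearMap.proj_comp_single_same, LinearMap.baseChange_id]
    intro a b hab
    have h3 := congrArg ((LinearMap.proj (R := k) (φ := V) i).baseChange ℂ) hab
    rw [← LinearMap.comp_apply, ← LinearMap.comp_apply, h2] at h3
    exact h3
  refine Module.End.hasEigenvalue_of_hasEigenvector (x := (LinearMap.single k V i).baseChange ℂ x)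
    ⟨?_, ?_⟩
  · rw [Module.End.mem_eigenspace_iff]
    have h2 : (sumRep ρ g).baseChange ℂ ∘ₗ (LinearMap.single k V i).baseChange ℂ =
        (LinearMap.single k V i).baseChange ℂ ∘ₗ (ρ i g).baseChange ℂ := by
      rw [← LinearMap.baseChange_comp, ← LinearMap.baseChange_comp]
      congr 1
      refine LinearMap.ext fun y => ?_
      exact sumRep_single ρ g i y
    rw [← LinearMap.comp_apply, h2, LinearMap.comp_apply, Module.End.mem_eigenspace_iff.1 hx.1,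
      map_smul]
  · intro h0
    exact hx.2 (hinj (by rw [h0, map_zero]))

end eigen

section main

variable {ι : Type} [Fintype ι] [DecidableEq ι] {n : ι → ℕ} {ℓ : ℕ} [hℓ : Fact ℓ.Prime]
  {Γ : Type} [Group Γ] [TopologicalSpace Γ] [IsTopologicalGroup Γ] [CompactSpace Γ]

/-- If the realization is semisimple, the Tate conjecture holds for the endomorphisms, and some
element has as many multiplicatively independent eigenvalues as the rank of `𝔤`, then the Tate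
tensors are the tensors killed by `𝔤`. -/
theorem tate_of_rank [Algebra ℚ_[ℓ] ℂ] (ρ : ∀ i, Representation ℚ_[ℓ] Γ (Fin (n i) → ℚ_[ℓ]))
    (hρ : ∀ i, Continuous fun g => LinearMap.toMatrix' (ρ i g))
    {𝔤 : Submodule ℚ_[ℓ] (End ℚ_[ℓ] (∀ i, Fin (n i) → ℚ_[ℓ]))} (h𝔤 : IsMotivic ρ 𝔤)
    (hss : FiniteIndexSemisimple (sumRep ρ)) (hE : R918.Ell.EndTate (sumRep ρ) 𝔤) {r : ℕ}
    (hrk : RankAtMost 𝔤 r) (γ : Γ) (z : Fin r → ℂ)
    (hz : ∀ j, End.HasEigenvalue ((sumRep ρ γ).baseChange ℂ) (z j))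
    (hind : ∀ e : Fin r → ℤ, ∏ j, z j ^ e j = 1 → e = 0) (m : ℕ)
    (φ : Tensor ℚ_[ℓ] (∀ i, Fin (n i) → ℚ_[ℓ]) m) :
    TateTensor (sumRep ρ) φ ↔ ∀ X ∈ 𝔤, KillsTensor X φ := by
  obtain ⟨L, hLG, hL, hLie, hadj⟩ := R918.Ell.exists_L ρ hρ h𝔤 hss hE
  have hLT : ∀ X, X ∈ L ↔ X ∈ LT (sumRep ρ) := fun X =>
    ⟨fun h => mem_LT_of_semisimple (sumRep ρ) hss ((hL X).1 h), fun h => (hL X).2 h.2⟩
  have hbc := inputs.bc ℚ_[ℓ] ℂ _ 𝔤
  have htL : tor ((sumRep ρ γ).baseChange ℂ) ≤ bcS ℂ L := tor_le (sumRep ρ) inputs hLT γ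
  have hcen := torus_cen (sumRep ρ) inputs inputs2.jord inputs2.cartan hLT hLG h𝔤.bracket
    h𝔤.nondeg h𝔤.algebraic hrk γ z hz hind
  have T : Y212.RM.Tor (bcS ℂ 𝔤) (tor ((sumRep ρ γ).baseChange ℂ)) :=
    ⟨hbc.2.1 h𝔤.bracket, hbc.2.2.1 h𝔤.nondeg, htL.trans (bcS_mono hLG), tor_diag _, tor_comm _,
      hcen⟩
  have h1 := full T hLie (bcS_mono hLG) htL hadj
  exact R918.Ell.tate_of_eq h𝔤 (fun X hX => (hL X).1 hX) h1.ge m φ

end main

section numberfield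

variable {F : Type} [Field F] [NumberField F] {ι : Type} [Fintype ι] [DecidableEq ι] {n : ι → ℕ}
  {w : ι → ℤ} {ℓ : ℕ} [hℓ : Fact ℓ.Prime]
  (ρ : ∀ i, Representation ℚ_[ℓ] Gal(AlgebraicClosure F/F) (Fin (n i) → ℚ_[ℓ]))

/-- The case of a number field and a Frobenius torus of maximal rank: the realization is
semisimple. -/
theorem main_frob
    (hρ : ∀ i, Continuous fun g => LinearMap.toMatrix' (ρ i g))
    (𝔤 : Submodule ℚ_[ℓ] (End ℚ_[ℓ] (∀ i, Fin (n i) → ℚ_[ℓ]))) (h𝔤 : IsMotivic ρ 𝔤)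
    (P : HeightOneSpectrum (𝓞 F) → ι → ℚ[X])
    (T : Set ℕ) (hT3 : 3 ≤ T.encard) (hT : ∀ p ∈ T, p.Prime ∧ p ≠ ℓ ∧ UnramifiedIn F p)
    (hgood : ∀ p ∈ T, ∀ v, Above v p → GoodPlace ρ w v (P v))
    {p₀ : ℕ} (hp₀ : p₀ ∈ T) (hind₀ : IndependentPlaces P p₀) {v₀ : HeightOneSpectrum (𝓞 F)}
    (hv₀ : Above v₀ p₀) (r : ℕ) (hr : IndependentRoots r (P v₀)) (hrk : RankAtMost 𝔤 r) :
    FiniteIndexSemisimple (sumRep ρ) ∧ (R918.Ell.EndTate (sumRep ρ) 𝔤 →
      ∀ (m : ℕ) (φ : Tensor ℚ_[ℓ] (∀ i, Fin (n i) → ℚ_[ℓ]) m),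
        TateTensor (sumRep ρ) φ ↔ ∀ X ∈ 𝔤, KillsTensor X φ) := by
  obtain ⟨-, halg, -, hss, -⟩ := semi_main ρ inputs inputs2 inputs3.rank hρ 𝔤 h𝔤 P T
    hT3 hT hgood hp₀ hind₀ hv₀ r hr hrk
  refine ⟨hss, fun hE m φ => ?_⟩
  let _ : Algebra ℚ_[ℓ] ℂ := halg
  obtain ⟨Q₀, σ₀, hQ₀, hQ₀v, hσ₀⟩ : ∃ (Q : Ideal (OO F)) (σ : GF F), Q.IsMaximal ∧
    cm Q = v₀.asIdeal ∧ FrobAt (Ideal.absNorm v₀.asIdeal) Q σ := frob_cm v₀
  obtain ⟨z, hz, hind⟩ := hr
  refine tate_of_rank ρ hρ h𝔤 hss hE hrk σ₀⁻¹ z (fun j => ?_) hind m φ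
  obtain ⟨i, hi⟩ := hz j
  exact sumRep_eigen ρ σ₀⁻¹ ((hgood p₀ hp₀ v₀ hv₀).frobenius i Q₀ ⟨hQ₀.isPrime, hQ₀v⟩ σ₀ hσ₀) hi

end numberfield

end Pool.Agent.K1H15.BS
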