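import Pool.Agent.K1H15.BS.Main
import Pool.Agent.K1H15.MT.MDefs

/-!
# The motivic Mumford-Tate conjecture from an element of maximal rank and the endomorphisms:
definitions and the final statements
-/

set_option autoImplicit false
set_option linter.unusedSectionVars false
set_option linter.unusedVariables false

namespace Pool.Agent.K1H15.BS

open NumberField IsDedekindDomain Module Polynomial TensorProduct
open Pool.Agent.Y114.RM Pool.Agent.Y114.TF Pool.Agent.Y114.GF Pool.Agent.Y114.MU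
  Pool.Agent.H204R3.GP Pool.Agent
open Pool.Agent.W569.FM Pool.Agent.W571.FM Pool.Agent.Y115.R Pool.Agent.Y115.T Pool.Agent.Y115.Chi
open Pool.Agent.K1H15.MT

/-- Among the eigenvalues of `γ` on the summands (in an algebraic closure of `ℚ_ℓ`) there are `r`
multiplicatively independent ones. -/
def HasRank {Γ : Type} [Group Γ] {ι : Type} {n : ι → ℕ} {ℓ : ℕ} [Fact ℓ.Prime] (ρ : Reps Γ n ℓ)
    (γ : Γ) (r : ℕ) : Prop :=
  ∃ z : Fin r → AlgebraicClosure ℚ_[ℓ],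
    (∀ j, ∃ i, aeval (z j) (LinearMap.charpoly (ρ i γ)) = 0) ∧
      ∀ e : Fin r → ℤ, ∏ j, z j ^ e j = 1 → e = 0

/-- The polynomial `f` has `deg f` different roots in an extension field of `ℚ_ℓ`, and no quotient of
two different roots is a root of unity. -/
def Neat {ℓ : ℕ} [Fact ℓ.Prime] (f : ℚ_[ℓ][X]) : Prop :=
  ∃ (Ω : Type) (_ : Field Ω) (_ : Algebra ℚ_[ℓ] Ω) (s : Finset Ω),
    (∀ a ∈ s, aeval a f = 0) ∧ s.card = f.natDegree ∧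
    ∀ N : ℕ, 0 < N → ∀ a ∈ s, ∀ b ∈ s, a ^ N = b ^ N → a = b

/-- One element of `Γ` acts on the summands with different irreducible characteristic polynomials
whose product is neat; and for every `i` some element acts on the `i`-th summand with a neat
characteristic polynomial which has a root in `ℚ_ℓ`. -/
def GoodElements {Γ : Type} [Group Γ] {ι : Type} [Fintype ι] {n : ι → ℕ} {ℓ : ℕ} [Fact ℓ.Prime]
    (ρ : Reps Γ n ℓ) : Prop :=
  (∃ γ : Γ, (∀ i, Irreducible (LinearMap.charpoly (ρ i γ))) ∧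
    (∀ i j, i ≠ j → LinearMap.charpoly (ρ i γ) ≠ LinearMap.charpoly (ρ j γ)) ∧
    Neat (∏ i, LinearMap.charpoly (ρ i γ))) ∧
  ∀ i, ∃ γ : Γ, Neat (LinearMap.charpoly (ρ i γ)) ∧ ∃ β, (LinearMap.charpoly (ρ i γ)).IsRoot β

section main

variable {ι : Type} [Fintype ι] [DecidableEq ι] {n : ι → ℕ} {ℓ : ℕ} [hℓ : Fact ℓ.Prime]
  {Γ : Type} [Group Γ]

theorem endTate_of {ρ : Reps Γ n ℓ} {𝔤 : EndSpace n ℓ} (h : TateEndosMotivated ρ 𝔤) :
    R918.Ell.EndTate (sumRep ρ)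
      (show Submodule ℚ_[ℓ] (End ℚ_[ℓ] (∀ i, Fin (n i) → ℚ_[ℓ])) from 𝔤) := by
  rintro P ⟨Δ, hΔ, hP⟩ X hX
  exact h P ⟨Δ, hΔ, fun g hg v => LinearMap.congr_fun (hP g hg) v⟩ X hX

theorem endos_of_tate {ρ : Reps Γ n ℓ} {𝔤 : EndSpace n ℓ} (h : TateTensorsOf ρ 𝔤) :
    TateEndosMotivated ρ 𝔤 := by
  rintro P ⟨Δ, hΔ, hP⟩ X hX
  exact R918.Ell.endTate_of_tate (sumRep ρ) h P
    ⟨Δ, hΔ, fun g hg => LinearMap.ext fun v => hP g hg v⟩ X hX

theorem rank_main [TopologicalSpace Γ] [IsTopologicalGroup Γ] [CompactSpace Γ]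
    (ρ : Reps Γ n ℓ) (hρ : Conts ρ) (𝔤 : EndSpace n ℓ) (h𝔤 : Motivic ρ 𝔤) (γ : Γ) (r : ℕ)
    (hr : HasRank ρ γ r) (hrk : RankLE 𝔤 r) :
    (Semisimple ρ ∧ TateTensorsOf ρ 𝔤 ↔ Semisimple ρ ∧ TateEndosMotivated ρ 𝔤) ∧
      (GoodElements ρ → Semisimple ρ ∧ TateTensorsOf ρ 𝔤) := by
  have key : Semisimple ρ → TateEndosMotivated ρ 𝔤 → TateTensorsOf ρ 𝔤 := by
    intro hss hE
    obtain ⟨j, hj⟩ := exists_j ℓ ℚ_[ℓ] ℚ (algebraMap ℚ ℚ_[ℓ]) (algebraMap ℚ ℂ)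
    let _ : Algebra ℚ_[ℓ] ℂ := j.toAlgebra
    let φ : AlgebraicClosure ℚ_[ℓ] →ₐ[ℚ_[ℓ]] ℂ := IsAlgClosed.lift
    obtain ⟨z, hz, hind⟩ := hr
    intro m T
    refine tate_of_rank ρ hρ h𝔤 hss (endTate_of hE) hrk γ (fun j => φ (z j)) (fun j => ?_) ?_ m T
    · obtain ⟨i, hi⟩ := hz j
      refine eigen_of_root ρ γ (i := i) ?_
      have h1 : aeval (φ (z j)) (LinearMap.charpoly (ρ i γ)) =
        φ (aeval (z j) (LinearMap.charpoly (ρ i γ))) := aeval_algHom_apply φ (z j) _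
      rw [hi, map_zero] at h1
      exact h1
    · intro e he
      refine hind e (φ.toRingHom.injective ?_)
      have h1 : φ (∏ j, z j ^ e j) = ∏ j, φ (z j) ^ e j := by
        rw [map_prod]
        exact Finset.prod_congr rfl fun j _ => map_zpow₀ φ _ _
      change φ (∏ j, z j ^ e j) = φ 1
      rw [h1, he, map_one]
  refine ⟨⟨fun h => ⟨h.1, endos_of_tate h.2⟩, fun h => ⟨h.1, key h.1 h.2⟩⟩, fun h => ?_⟩
  obtain ⟨h1, h2⟩ := R918.Ell.of_goodPolys (k := ℚ_[ℓ]) ρ (𝔤 := 𝔤) (IsMotivic.parts h𝔤) h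
  refine ⟨h1, key h1 ?_⟩
  rintro P ⟨Δ, hΔ, hP⟩ X hX
  exact h2 P ⟨Δ, hΔ, fun g hg => LinearMap.ext fun v => hP g hg v⟩ X hX

end main

section numberfield

variable {ι : Type} [Fintype ι] [DecidableEq ι] {n : ι → ℕ} {ℓ : ℕ} [hℓ : Fact ℓ.Prime]
  {Γ : Type} [Group Γ]

theorem frob_main (ρ : Reps Γ n ℓ) (𝔤 : EndSpace n ℓ) (h𝔤 : Motivic ρ 𝔤)
    {F : Type} [Field F] [NumberField F] (s : Gal(AlgebraicClosure F/F) →* Γ)
    (ρs : Reps Gal(AlgebraicClosure F/F) n ℓ) (hs : ρs = restrictTo ρ s) (hρs : Conts ρs)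
    (w : ι → ℤ)
    (P : HeightOneSpectrum (𝓞 F) → ι → ℚ[X]) (T : Set ℕ) (hT3 : 3 ≤ T.encard)
    (hT : ∀ p ∈ T, p.Prime ∧ p ≠ ℓ ∧ UnramifiedIn F p)
    (hP : ∀ p ∈ T, ∀ v, Above v p → ∀ i, GoodReduction ρs i (w i) v (P v i))
    (p₀ : ℕ) (hp₀ : p₀ ∈ T) (hind : IndependentPlaces P p₀)
    (v₀ : HeightOneSpectrum (𝓞 F)) (hv₀ : Above v₀ p₀) (r : ℕ)
    (hr : IndepRoots r (Set.range (P v₀))) (hrk : RankLE 𝔤 r) :
    Semisimple ρs ∧ (TateTensorsOf ρs 𝔤 ↔ TateEndosMotivated ρs 𝔤) ∧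
      (TateEndosMotivated ρs 𝔤 → Semisimple ρ ∧ TateTensorsOf ρ 𝔤) := by
  subst hs
  obtain ⟨h1, h2⟩ := main_frob (w := w) (restrictTo ρ s) hρs 𝔤 (motivic_restrict h𝔤 s) P T hT3 hT
    (fun p hp v hv => goodPlace_of _ (hP p hp v hv)) hp₀ hind hv₀ r (independentRoots_range hr) hrk
  have h3 : TateEndosMotivated (restrictTo ρ s) 𝔤 → TateTensorsOf (restrictTo ρ s) 𝔤 :=
    fun h => h2 (endTate_of h)
  exact ⟨h1, ⟨endos_of_tate, h3⟩, fun h => of_restrict inputs h𝔤 s h1 fun m T hT X hX =>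
    (h3 h m T).1 hT X hX⟩

end numberfield

end Pool.Agent.K1H15.BS
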